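import Mathlib

set_option autoImplicit false

open Polynomial

namespace Pool.Agent.H273Z.Liou

/-- naive height of an integer polynomial -/
def ht (P : ℤ[X]) : ℕ := (Finset.range (P.natDegree + 1)).sup (fun i => (P.coeff i).natAbs)

theorem coeff_le_ht (P : ℤ[X]) (i : ℕ) : |(P.coeff i : ℝ)| ≤ ht P := by
  have h : (P.coeff i).natAbs ≤ ht P := by
    by_cases hi : i ≤ P.natDegree
    · exact Finset.le_sup (f := fun i => (P.coeff i).natAbs)
        (Finset.mem_range.mpr (Nat.lt_succ_of_le hi))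
    · rw [coeff_eq_zero_of_natDegree_lt (not_le.mp hi)]
      simp
  have h2 : ((P.coeff i).natAbs : ℝ) ≤ ht P := by exact_mod_cast h
  rwa [Nat.cast_natAbs, Int.cast_abs] at h2

theorem ht_le {P : ℤ[X]} {h : ℝ} (H : ∀ i, |(P.coeff i : ℝ)| ≤ h) : (ht P : ℝ) ≤ h := by
  obtain ⟨i, _, hi⟩ := Finset.exists_mem_eq_sup (Finset.range (P.natDegree + 1))
    ⟨0, by simp⟩ (fun i => (P.coeff i).natAbs)
  unfold ht
  rw [hi, Nat.cast_natAbs, Int.cast_abs]
  exact H i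

theorem one_le_ht {P : ℤ[X]} (hP : P ≠ 0) : (1 : ℝ) ≤ ht P := by
  refine le_trans ?_ (coeff_le_ht P P.natDegree)
  have : P.coeff P.natDegree ≠ 0 := leadingCoeff_ne_zero.mpr hP
  exact_mod_cast Int.one_le_abs this

theorem exists_irred_root {α : ℝ} (Q : ℤ[X]) (hQ : Q ≠ 0) (h : aeval α Q = 0) :
    ∃ P R : ℤ[X], Irreducible P ∧ Q = P * R ∧ aeval α P = 0 := by
  induction Q using WfDvdMonoid.induction_on_irreducible with
  | zero => exact absurd rfl hQ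
  | unit u hu => exact absurd h (hu.map (aeval α)).ne_zero
  | mul a i ha hi ih =>
    rw [map_mul, mul_eq_zero] at h
    rcases h with h | h
    · exact ⟨i, a, hi, rfl, h⟩
    · obtain ⟨P, R, h1, h2, h3⟩ := ih ha h
      exact ⟨P, i * R, h1, by rw [h2]; ring, h3⟩

theorem abs_le_of_mul {x y z : ℤ} (h : z = x * y) (hz : z ≠ 0) : |(x : ℝ)| ≤ |(z : ℝ)| := by
  have : |x| ≤ |z| := Int.le_of_dvd (abs_pos.mpr hz) ((abs_dvd_abs _ _).mpr ⟨y, h⟩)
  exact_mod_cast this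

theorem factor_ht {P R Q : ℤ[X]} (hQ : Q ≠ 0) (e : Q = P * R) (hd : Q.natDegree ≤ 2) {h : ℝ}
    (H : ∀ i, |(Q.coeff i : ℝ)| ≤ h) : P.natDegree ≤ 2 ∧ ∀ i, |(P.coeff i : ℝ)| ≤ h := by
  have hP : P ≠ 0 := by rintro rfl; simp at e; exact hQ e
  have hR : R ≠ 0 := by rintro rfl; simp at e; exact hQ e
  have hdeg : Q.natDegree = P.natDegree + R.natDegree := by rw [e, natDegree_mul hP hR]
  have h0 : 0 ≤ h := (abs_nonneg _).trans (H 0)
  refine ⟨by omega, fun i => ?_⟩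
  by_cases hi : P.coeff i = 0
  · simp [hi, h0]
  by_cases hR0 : R.natDegree = 0
  · rw [eq_C_of_natDegree_eq_zero hR0] at e hR
    have hr : R.coeff 0 ≠ 0 := by
      intro h; rw [h] at hR; simp at hR
    have e2 : Q.coeff i = P.coeff i * R.coeff 0 := by rw [e, coeff_mul_C]
    exact (abs_le_of_mul e2 (by rw [e2]; exact mul_ne_zero hi hr)).trans (H i)
  · have hle : i ≤ P.natDegree := le_natDegree_of_ne_zero hi
    by_cases h1 : i = P.natDegree
    · have e2 : Q.leadingCoeff = P.coeff i * R.leadingCoeff := by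
        rw [e, leadingCoeff_mul, h1]; rfl
      exact (abs_le_of_mul e2 (leadingCoeff_ne_zero.mpr hQ)).trans (H _)
    · have hi0 : i = 0 := by omega
      subst hi0
      have e2 : Q.trailingCoeff = P.coeff 0 * R.trailingCoeff := by
        rw [e, trailingCoeff_mul, trailingCoeff_eq_coeff_zero hi]
      exact (abs_le_of_mul e2 (trailingCoeff_nonzero_iff_nonzero.mpr hQ)).trans (H _)

/-- the set whose supremum is the uniform exponent -/
def Good (ζ : ℝ) (n : ℕ) (w H : ℝ) : Prop :=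
  ∃ α : ℝ, ∃ P : Polynomial ℤ, Irreducible P ∧ P.natDegree ≤ n ∧ Polynomial.aeval α P = 0 ∧
    (ht P : ℝ) ≤ H ∧ 0 < |ζ - α| ∧ |ζ - α| ≤ ((ht P : ℝ))⁻¹ * H ^ (-w)

theorem good_of_quad {ζ : ℝ} (hζ : Transcendental ℤ ζ) (a b c : ℤ) {h H w α : ℝ}
    (hab : a ≠ 0 ∨ b ≠ 0) (ha : |(a : ℝ)| ≤ h) (hb : |(b : ℝ)| ≤ h) (hc : |(c : ℝ)| ≤ h)
    (hH : h ≤ H) (hα : a * α ^ 2 + b * α + c = 0) (hd : |ζ - α| ≤ h⁻¹ * H ^ (-w)) :
    Good ζ 2 w H := by
  let Q : ℤ[X] := C a * X ^ 2 + C b * X + C c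
  have c2 : Q.coeff 2 = a := by
    simp only [Q, coeff_add, coeff_C_mul, coeff_X_pow, coeff_X, coeff_C]; simp
  have c1 : Q.coeff 1 = b := by
    simp only [Q, coeff_add, coeff_C_mul, coeff_X_pow, coeff_X, coeff_C]; simp
  have c0 : Q.coeff 0 = c := by simp [Q]
  have hdeg : Q.natDegree ≤ 2 := natDegree_quadratic_le
  have hQ : Q ≠ 0 := by
    intro h0
    rw [h0] at c2 c1
    simp at c2 c1
    rcases hab with h | h
    exacts [h c2.symm, h c1.symm]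
  have h0 : 0 ≤ h := (abs_nonneg _).trans ha
  have hco : ∀ i, |(Q.coeff i : ℝ)| ≤ h := by
    intro i
    rcases i with _ | _ | _ | i
    · rwa [c0]
    · rwa [c1]
    · rwa [c2]
    · rw [coeff_eq_zero_of_natDegree_lt (by omega)]
      simpa using h0
  have hroot : aeval α Q = 0 := by simp [Q, hα]
  obtain ⟨P, R, h1, h2, h3⟩ := exists_irred_root Q hQ hroot
  obtain ⟨h4, h5⟩ := factor_ht hQ h2 hdeg hco
  have h6 := ht_le h5
  have h7 := one_le_ht h1.ne_zero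
  refine ⟨α, P, h1, h4, h3, h6.trans hH, ?_, hd.trans ?_⟩
  · rw [abs_pos, sub_ne_zero]
    rintro rfl
    exact hζ ⟨P, h1.ne_zero, h3⟩
  · have : 0 ≤ H ^ (-w) := Real.rpow_nonneg (h0.trans hH) _
    gcongr

theorem exists_root (a b c ζ : ℝ) (hD : 0 < |2 * a * ζ + b|)
    (h : 4 * |a| * |a * ζ ^ 2 + b * ζ + c| ≤ |2 * a * ζ + b| ^ 2) :
    ∃ α : ℝ, a * α ^ 2 + b * α + c = 0 ∧
      |ζ - α| ≤ 2 * |a * ζ ^ 2 + b * ζ + c| / |2 * a * ζ + b| := by
  set v := a * ζ ^ 2 + b * ζ + c with hv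
  set D := 2 * a * ζ + b with hDD
  set r := 2 * |v| / |D| with hr
  have hr0 : 0 ≤ r := by positivity
  have hrD : r * |D| = 2 * |v| := by rw [hr]; field_simp
  have har : |a| * r ^ 2 ≤ |v| := by
    have h1 : |a| * r ^ 2 * |D| ^ 2 ≤ |v| * |D| ^ 2 := by
      calc |a| * r ^ 2 * |D| ^ 2 = |a| * (r * |D|) ^ 2 := by ring
        _ = (4 * |a| * |v|) * |v| := by rw [hrD]; ring
        _ ≤ |D| ^ 2 * |v| := by gcongr
        _ = _ := by ring
    exact le_of_mul_le_mul_right h1 (by positivity)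
  let f : ℝ → ℝ := fun y => v + D * y + a * y ^ 2
  have hf : Continuous f := by fun_prop
  have e : ∀ y, a * (ζ + y) ^ 2 + b * (ζ + y) + c = f y := by
    intro y; simp only [f, hv, hDD]; ring
  have a1 : a * r ^ 2 ≤ |v| := le_trans (by gcongr; exact le_abs_self a) har
  have a2 : -|v| ≤ a * r ^ 2 := by
    have : -a * r ^ 2 ≤ |a| * r ^ 2 := by gcongr; exact neg_le_abs a
    linarith
  have v1 := le_abs_self v
  have v2 := neg_abs_le v
  have key : ∃ y ∈ Set.Icc (-r) r, f y = 0 := by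
    rcases le_or_gt 0 D with hs | hs
    · rw [abs_of_nonneg hs] at hrD
      apply intermediate_value_Icc (by linarith) hf.continuousOn
      constructor
      · simp only [f]; nlinarith
      · simp only [f]; nlinarith
    · rw [abs_of_neg hs] at hrD
      apply intermediate_value_Icc' (by linarith) hf.continuousOn
      constructor
      · simp only [f]; nlinarith
      · simp only [f]; nlinarith
  obtain ⟨y, hy, hy0⟩ := key
  refine ⟨ζ + y, by rw [e, hy0], ?_⟩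
  rw [show ζ - (ζ + y) = -y by ring, abs_neg, abs_le]
  exact hy

theorem dirichlet2 (x y A B E : ℝ) (hA : 0 ≤ A) (hB : 0 ≤ B) (hE : 0 < E)
    (h : 1 / E + 1 ≤ A * B) :
    ∃ a b c : ℤ, (a ≠ 0 ∨ b ≠ 0) ∧ |(a : ℝ)| ≤ A ∧ |(b : ℝ)| ≤ B ∧ |a * x + b * y + c| ≤ E := by
  set N := ⌈1 / E⌉₊ with hN
  have hN1 : 1 / E ≤ N := Nat.le_ceil _
  have hN2 : (N : ℝ) < 1 / E + 1 := Nat.ceil_lt_add_one (by positivity)
  have hNpos : (0 : ℝ) < N := lt_of_lt_of_le (by positivity) hN1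
  let s := Finset.range (⌊A⌋₊ + 1) ×ˢ Finset.range (⌊B⌋₊ + 1)
  let f : ℕ × ℕ → ℕ := fun p => ⌊Int.fract (p.1 * x + p.2 * y) * N⌋₊
  have hcard : (Finset.range N).card < s.card := by
    simp only [s, Finset.card_product, Finset.card_range]
    have h1 : A < (⌊A⌋₊ : ℝ) + 1 := Nat.lt_floor_add_one A
    have h2 : B < (⌊B⌋₊ : ℝ) + 1 := Nat.lt_floor_add_one B
    have h3 : A * B ≤ ((⌊A⌋₊ : ℝ) + 1) * ((⌊B⌋₊ : ℝ) + 1) := by gcongr
    have h4 : (N : ℝ) < ((⌊A⌋₊ : ℝ) + 1) * ((⌊B⌋₊ : ℝ) + 1) := by linarith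
    exact_mod_cast h4
  have hmaps : Set.MapsTo f s (Finset.range N) := by
    intro p _
    simp only [f, Finset.coe_range, Set.mem_Iio]
    rw [Nat.floor_lt (mul_nonneg (Int.fract_nonneg _) hNpos.le)]
    exact mul_lt_of_lt_one_left hNpos (Int.fract_lt_one _)
  obtain ⟨p, hp, q, hq, hne, hpq⟩ := Finset.exists_ne_map_eq_of_card_lt_of_maps_to hcard hmaps
  simp only [s, Finset.mem_product, Finset.mem_range, Nat.lt_succ_iff] at hp hq
  have b1 : ∀ m : ℕ, m ≤ ⌊A⌋₊ → (m : ℝ) ≤ A := fun m hm => (Nat.le_floor_iff hA).mp hm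
  have b2 : ∀ m : ℕ, m ≤ ⌊B⌋₊ → (m : ℝ) ≤ B := fun m hm => (Nat.le_floor_iff hB).mp hm
  refine ⟨(p.1 : ℤ) - q.1, (p.2 : ℤ) - q.2,
    ⌊(q.1 : ℝ) * x + q.2 * y⌋ - ⌊(p.1 : ℝ) * x + p.2 * y⌋, ?_, ?_, ?_, ?_⟩
  · by_contra hc
    push Not at hc
    apply hne
    ext <;> omega
  · push_cast
    rw [abs_le]
    constructor <;> linarith [b1 _ hp.1, b1 _ hq.1, Nat.cast_nonneg (α := ℝ) p.1,
      Nat.cast_nonneg (α := ℝ) q.1]
  · push_cast
    rw [abs_le]
    constructor <;> linarith [b2 _ hp.2, b2 _ hq.2, Nat.cast_nonneg (α := ℝ) p.2,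
      Nat.cast_nonneg (α := ℝ) q.2]
  · set u := Int.fract ((p.1 : ℝ) * x + p.2 * y) with hu
    set u' := Int.fract ((q.1 : ℝ) * x + q.2 * y) with hu'
    have e : (((p.1 : ℤ) - q.1 : ℤ) : ℝ) * x + (((p.2 : ℤ) - q.2 : ℤ) : ℝ) * y +
        ((⌊(q.1 : ℝ) * x + q.2 * y⌋ - ⌊(p.1 : ℝ) * x + p.2 * y⌋ : ℤ) : ℝ) = u - u' := by
      rw [hu, hu', Int.fract, Int.fract]
      push_cast
      ring
    rw [e]
    have hu0 : 0 ≤ u * N := mul_nonneg (Int.fract_nonneg _) hNpos.le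
    have hu0' : 0 ≤ u' * N := mul_nonneg (Int.fract_nonneg _) hNpos.le
    have f1 := Nat.floor_le hu0
    have f2 := Nat.lt_floor_add_one (u * N)
    have f3 := Nat.floor_le hu0'
    have f4 := Nat.lt_floor_add_one (u' * N)
    have hpq' : ⌊u * N⌋₊ = ⌊u' * N⌋₊ := hpq
    rw [hpq'] at f1 f2
    have g : |u - u'| * N ≤ 1 := by
      rw [← abs_of_pos hNpos, ← abs_mul, abs_le]
      constructor <;> linarith
    have g2 : 1 ≤ E * N := by
      rw [div_le_iff₀ hE] at hN1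
      linarith
    exact le_of_mul_le_mul_right (g.trans g2) hNpos

end Pool.Agent.H273Z.Liou
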