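import Pool.Agent.H273Z.LiouA

set_option autoImplicit false

open Polynomial

namespace Pool.Agent.H273Z.Liou

theorem good_of {ζ : ℝ} (hζ : Transcendental ℤ ζ) (a b c : ℤ) {h H w u : ℝ}
    (hab : a ≠ 0 ∨ b ≠ 0) (ha : |(a : ℝ)| ≤ h) (hb : |(b : ℝ)| ≤ h) (hc : |(c : ℝ)| ≤ h)
    (hh : 0 < h) (hH : h ≤ H) (hu : 0 < u) (hw : H ^ (-w) = u⁻¹) (hD : 0 < |2 * a * ζ + b|)
    (h1 : 4 * |(a : ℝ)| * |a * ζ ^ 2 + b * ζ + c| ≤ |2 * a * ζ + b| ^ 2)
    (h2 : 2 * |a * ζ ^ 2 + b * ζ + c| * h * u ≤ |2 * a * ζ + b|) : Good ζ 2 w H := by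
  obtain ⟨α, hα, hd⟩ := exists_root a b c ζ hD h1
  refine good_of_quad hζ a b c hab ha hb hc hH hα (hd.trans ?_)
  rw [hw, div_le_iff₀ hD, ← mul_inv, ← div_eq_inv_mul, le_div_iff₀ (by positivity)]
  linarith

theorem coeff_bound {ζ M : ℝ} (hM : |ζ| ≤ M) (hM1 : 1 ≤ M) (a b c : ℝ)
    (hv : |a * ζ ^ 2 + b * ζ + c| ≤ 1) : |c| ≤ (|a| + |b| + 1) * M ^ 2 := by
  have e : c = (a * ζ ^ 2 + b * ζ + c) - a * ζ ^ 2 - b * ζ := by ring
  have h1 : |a * ζ ^ 2| ≤ |a| * M ^ 2 := by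
    rw [abs_mul, abs_pow]; gcongr
  have h2 : |b * ζ| ≤ |b| * M ^ 2 := by
    rw [abs_mul]; gcongr; nlinarith
  have h3 : |c| ≤ |a * ζ ^ 2 + b * ζ + c| + |a * ζ ^ 2| + |b * ζ| := by
    conv_lhs => rw [e]
    exact (abs_sub _ _).trans (by gcongr; exact abs_sub _ _)
  nlinarith

theorem caseA {ζ M t H w : ℝ} {j : ℕ} (hζ : Transcendental ℤ ζ) (hM : |ζ| ≤ M) (hM1 : 1 ≤ M)
    (ht : 12 * M ^ 2 ≤ t) (hH : t ^ (j + 1) = H) (hw : H ^ (-w) = (t ^ (j + 2))⁻¹)
    (a b c : ℤ) (h1 : t * |(a : ℝ)| ≤ |(b : ℝ)|) (h2 : 1 ≤ |(b : ℝ)|) (h3 : |(b : ℝ)| ≤ 2 * t ^ j)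
    (h4 : |a * ζ ^ 2 + b * ζ + c| * t ^ (j + 3) ≤ 1) : Good ζ 2 w H := by
  have hM2 : M ≤ M ^ 2 := by nlinarith
  have ht1 : 12 ≤ t := by nlinarith
  have ht0 : 0 < t := by linarith
  have htj : 1 ≤ t ^ (j + 2) := one_le_pow₀ (by linarith)
  set v := |a * ζ ^ 2 + b * ζ + c| with hv
  have hv0 : 0 ≤ v := abs_nonneg _
  have hvt : v * t ^ (j + 2) * t ≤ 1 := by rw [mul_assoc, ← pow_succ]; exact h4
  have hv1 : v * t ≤ 1 := by nlinarith [mul_nonneg hv0 ht0.le]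
  have hv2 : v ≤ 1 := by nlinarith
  have ha0 := abs_nonneg (a : ℝ)
  have hab : |(a : ℝ)| ≤ |(b : ℝ)| := by nlinarith
  have hc := coeff_bound hM hM1 a b c hv2
  have hD : |(b : ℝ)| / 2 ≤ |2 * a * ζ + b| := by
    have e1 : |(b : ℝ)| ≤ |2 * a * ζ + b| + |2 * a * ζ| := by
      have := abs_sub (2 * a * ζ + b) (2 * a * ζ)
      rwa [show 2 * a * ζ + b - 2 * a * ζ = b by ring] at this
    have e2 : |2 * (a : ℝ) * ζ| ≤ 2 * |(a : ℝ)| * M := by
      rw [abs_mul, abs_mul, abs_two]; gcongr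
    nlinarith
  refine good_of hζ a b c (h := 3 * |(b : ℝ)| * M ^ 2) (u := t ^ (j + 2)) (Or.inr ?_) ?_ ?_ ?_ ?_
    ?_ (by positivity) hw (by linarith) ?_ ?_
  · rintro rfl
    norm_num at h2
  · nlinarith
  · nlinarith
  · nlinarith
  · positivity
  · rw [← hH, pow_succ t j]
    have : 0 < t ^ j := by positivity
    calc 3 * |(b : ℝ)| * M ^ 2 ≤ 3 * (2 * t ^ j) * M ^ 2 := by gcongr
      _ = t ^ j * (6 * M ^ 2) := by ring
      _ ≤ t ^ j * t := by gcongr; linarith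
  · rw [← hv]
    have e1 : 4 * |(a : ℝ)| * v * (t * t) ≤ 4 * |(b : ℝ)| := by
      calc 4 * |(a : ℝ)| * v * (t * t) = 4 * (t * |(a : ℝ)|) * (v * t) := by ring
        _ ≤ 4 * |(b : ℝ)| * 1 := by gcongr
        _ = _ := by ring
    have e2 : (|(b : ℝ)| / 2) ^ 2 ≤ |2 * a * ζ + b| ^ 2 := by gcongr
    have e3 : 144 ≤ t * t := by nlinarith
    have e4 : 0 ≤ 4 * |(a : ℝ)| * v := by positivity
    nlinarith
  · rw [← hv]
    have e0 : 0 ≤ v * t ^ (j + 2) := by positivity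
    have e1 : v * t ^ (j + 2) * (12 * M ^ 2) ≤ 1 := le_trans (by gcongr) hvt
    calc 2 * v * (3 * |(b : ℝ)| * M ^ 2) * t ^ (j + 2)
        = (v * t ^ (j + 2) * (12 * M ^ 2)) * (|(b : ℝ)| / 2) := by ring
      _ ≤ 1 * (|(b : ℝ)| / 2) := by gcongr
      _ ≤ _ := by linarith

theorem main_est {ζ M t H w : ℝ} {m j : ℕ} (hζ : Transcendental ℤ ζ) (hM : |ζ| ≤ M) (hM1 : 1 ≤ M)
    (hm : ∀ a b : ℤ, b ≠ 0 → 1 ≤ |b * ζ + a| * (2 * |(b : ℝ)|) ^ m) (hj : j = 16 * m + 20)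
    (ht : 12 * M ^ 2 ≤ t) (hH : t ^ (j + 1) = H) (hw : H ^ (-w) = (t ^ (j + 2))⁻¹) :
    Good ζ 2 w H := by
  have hM2 : M ≤ M ^ 2 := by nlinarith
  have ht1 : 12 ≤ t := by nlinarith
  have ht0 : 0 < t := by linarith
  have hmono : ∀ {p q : ℕ}, p ≤ q → t ^ p ≤ t ^ q := fun h => pow_le_pow_right₀ (by linarith) h
  have hone : ∀ p : ℕ, 1 ≤ t ^ p := fun p => one_le_pow₀ (by linarith)
  have hstep : ∀ p : ℕ, 12 * t ^ p ≤ t ^ (p + 1) := fun p => by
    rw [pow_succ]; nlinarith [hone p]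
  have hs15 : 12 * t ^ 15 ≤ t ^ 16 := hstep 15
  have hs4 : 12 * t ^ 4 ≤ t ^ 5 := hstep 4
  have hs9 : 12 * t ^ 9 ≤ t ^ 10 := hstep 9
  obtain ⟨a, b, c, hab, ha, hb, hv⟩ := dirichlet2 (ζ ^ 2) ζ (t ^ 4) (t ^ j) (1 / t ^ (j + 3))
    (by positivity) (by positivity) (by positivity) (by
      rw [one_div_one_div, ← pow_add, show 4 + j = j + 3 + 1 by ring]
      linarith [hstep (j + 3), hone (j + 3)])
  rw [le_div_iff₀ (by positivity)] at hv
  by_cases hA : t ^ 5 ≤ |(b : ℝ)|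
  · refine caseA hζ hM hM1 ht hH hw a b c ?_ ((hone 5).trans hA) (by linarith [hone j]) hv
    calc t * |(a : ℝ)| ≤ t * t ^ 4 := by gcongr
      _ = t ^ 5 := by ring
      _ ≤ _ := hA
  push Not at hA
  set V := a * ζ ^ 2 + b * ζ + c with hV
  have hv0 : 0 ≤ |V| := abs_nonneg _
  by_cases hB : |V| * t ^ (j + 9) ≤ 1
  · -- the small polynomial itself works
    have hv2 : |V| ≤ 1 := by nlinarith [hone (j + 9)]
    have hc := coeff_bound hM hM1 a b c hv2
    have h45 : t ^ 4 ≤ t ^ 5 := hmono (by norm_num)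
    have hh : (|(a : ℝ)| + |(b : ℝ)| + 1) * M ^ 2 ≤ t ^ 6 := by
      calc (|(a : ℝ)| + |(b : ℝ)| + 1) * M ^ 2 ≤ (3 * t ^ 5) * M ^ 2 := by
            gcongr; linarith [hone 5]
        _ ≤ t ^ 5 * t := by nlinarith [hone 5]
        _ = t ^ 6 := by ring
    have haV : 4 * |(a : ℝ)| * |V| * t ^ (j + 5) ≤ 4 := by
      calc 4 * |(a : ℝ)| * |V| * t ^ (j + 5) ≤ 4 * t ^ 4 * |V| * t ^ (j + 5) := by gcongr
        _ = 4 * (|V| * t ^ (j + 9)) := by ring
        _ ≤ 4 := by linarith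
    have haV0 : 0 ≤ 4 * |(a : ℝ)| * |V| := by positivity
    have haV2 : 4 * |(a : ℝ)| * |V| ≤ 1 / 2 := by
      have : 12 ≤ t ^ (j + 5) := by linarith [hstep (j + 4), hone (j + 4)]
      nlinarith
    have hdisc : (2 * a * ζ + b) ^ 2 = ((b ^ 2 - 4 * a * c : ℤ) : ℝ) + 4 * a * V := by
      rw [hV]; push_cast; ring
    have habs : |4 * a * V| = 4 * |(a : ℝ)| * |V| := by
      rw [abs_mul, abs_mul]; norm_num
    have hl := neg_abs_le (4 * a * V)
    have hu := le_abs_self (4 * a * V)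
    rw [habs] at hl hu
    by_cases hΔ : b ^ 2 - 4 * a * c = 0
    · exfalso
      have ha0 : a ≠ 0 := by
        rintro rfl
        simp at hΔ hab
        exact hab hΔ
      have h1 := hm b (2 * a) (by omega)
      rw [hΔ] at hdisc
      push_cast at h1 hdisc
      have h2 : (2 * |2 * (a : ℝ)|) ^ m ≤ t ^ (5 * m) := by
        rw [pow_mul]
        gcongr
        rw [abs_mul, abs_two]
        linarith [hs4, hone 4]
      have h3 : 1 ≤ |2 * a * ζ + b| * t ^ (5 * m) := h1.trans (by gcongr)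
      have h4 : 1 ≤ (2 * a * ζ + b) ^ 2 * t ^ (10 * m) := by
        have := one_le_pow₀ (n := 2) h3
        rwa [mul_pow, sq_abs, ← pow_mul, show 5 * m * 2 = 10 * m by ring] at this
      have h5 : (2 * a * ζ + b) ^ 2 ≤ 4 * |(a : ℝ)| * |V| := by linarith
      have h6 : 12 * t ^ (10 * m) ≤ t ^ (j + 5) := (hstep _).trans (hmono (by omega))
      have h7 : 1 ≤ 4 * |(a : ℝ)| * |V| * t ^ (10 * m) := h4.trans (by gcongr)
      nlinarith
    · have h1 : (-1 : ℝ) < ((b ^ 2 - 4 * a * c : ℤ) : ℝ) := by nlinarith [sq_nonneg (2 * a * ζ + b)]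
      have h2 : (1 : ℤ) ≤ b ^ 2 - 4 * a * c := by
        have : (-1 : ℤ) < b ^ 2 - 4 * a * c := by exact_mod_cast h1
        omega
      have h3 : (1 : ℝ) ≤ ((b ^ 2 - 4 * a * c : ℤ) : ℝ) := by exact_mod_cast h2
      have h4 : 1 / 2 ≤ |2 * a * ζ + b| ^ 2 := by rw [sq_abs]; linarith
      have h5 : 1 / 2 ≤ |2 * a * ζ + b| := by
        by_contra hcon
        push Not at hcon
        nlinarith [abs_nonneg (2 * a * ζ + b)]
      refine good_of hζ a b c (h := t ^ 6) (u := t ^ (j + 2)) hab (ha.trans (hmono (by norm_num)))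
        (hA.le.trans (hmono (by norm_num))) (hc.trans hh) (by positivity)
        (by rw [← hH]; exact hmono (by omega)) (by positivity) hw (by linarith)
        (by rw [← hV]; linarith) ?_
      rw [← hV]
      have h6 : |V| * t ^ (j + 8) * 12 ≤ 1 := by
        refine le_trans ?_ hB
        rw [mul_assoc]
        gcongr
        linarith [hstep (j + 8)]
      calc 2 * |V| * t ^ 6 * t ^ (j + 2) = 2 * (|V| * t ^ (j + 8)) := by ring
        _ ≤ _ := by linarith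
  · -- correct a linear form by a multiple of the small polynomial
    push Not at hB
    have hVpos : 0 < |V| := by
      rcases hv0.eq_or_lt with h | h
      · rw [← h] at hB; norm_num at hB
      · exact h
    have hV0 : V ≠ 0 := abs_pos.mp hVpos
    obtain ⟨r, l, hl0, hl1, hl2⟩ := Real.exists_int_int_abs_mul_sub_le ζ (n := ⌊t ^ j⌋₊)
      (Nat.floor_pos.mpr (hone j))
    have hl1' : (l : ℝ) ≤ t ^ j := by
      have : (l : ℝ) ≤ (⌊t ^ j⌋₊ : ℝ) := by exact_mod_cast hl1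
      exact this.trans (Nat.floor_le (by positivity))
    have hl0' : (0 : ℝ) < l := by exact_mod_cast hl0
    have hl3 : |l * ζ - r| * t ^ j ≤ 1 := by
      rw [le_div_iff₀ (by positivity)] at hl2
      refine le_trans ?_ hl2
      gcongr
      exact (Nat.lt_floor_add_one _).le
    have hl4 : 2 * t ^ 15 ≤ l := by
      by_contra hcon
      push Not at hcon
      have h1 := hm (-r) l hl0.ne'
      push_cast at h1
      rw [← sub_eq_add_neg, abs_of_pos hl0'] at h1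
      have h2 : (2 * (l : ℝ)) ^ m ≤ t ^ (16 * m) := by
        rw [pow_mul]
        gcongr
        linarith [hs15, hone 15]
      have h3 : 1 ≤ |l * ζ - r| * t ^ (16 * m) := h1.trans (by gcongr)
      have h4 : 12 * t ^ (16 * m) ≤ t ^ j := (hstep _).trans (hmono (by omega))
      nlinarith [abs_nonneg (l * ζ - r)]
    set L := (l : ℝ) * ζ - r with hL
    obtain ⟨s, hs1⟩ : ∃ s : ℤ, |-L / V - s| ≤ 1 / 2 := ⟨_, abs_sub_round _⟩
    have hs2 : |-L / V| ≤ t ^ 9 := by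
      rw [abs_div, abs_neg, div_le_iff₀ hVpos]
      have h1 : |L| * t ^ j ≤ t ^ 9 * |V| * t ^ j := by
        calc |L| * t ^ j ≤ 1 := hl3
          _ ≤ |V| * t ^ (j + 9) := hB.le
          _ = _ := by ring
      exact le_of_mul_le_mul_right h1 (by positivity)
    have hs3 : |(s : ℝ)| ≤ t ^ 10 := by
      have h1 := abs_sub (-L / V) (-L / V - s)
      rw [show -L / V - (-L / V - s) = s by ring] at h1
      linarith [hs9, hone 9]
    have hsb : |(s : ℝ) * b| ≤ t ^ 15 := by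
      rw [abs_mul]
      calc |(s : ℝ)| * |(b : ℝ)| ≤ t ^ 10 * t ^ 5 := by gcongr
        _ = _ := by ring
    have hsa : |(s : ℝ) * a| ≤ t ^ 14 := by
      rw [abs_mul]
      calc |(s : ℝ)| * |(a : ℝ)| ≤ t ^ 10 * t ^ 4 := by gcongr
        _ = _ := by ring
    rw [abs_le] at hsb
    have hbpos : t ^ 15 ≤ (s : ℝ) * b + l := by linarith [hsb.1]
    have hbabs : |(s : ℝ) * b + l| = s * b + l := abs_of_nonneg (by linarith [hone 15])
    refine caseA hζ hM hM1 ht hH hw (s * a) (s * b + l) (s * c - r) ?_ ?_ ?_ ?_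
    · push_cast
      rw [hbabs]
      calc t * |(s : ℝ) * a| ≤ t * t ^ 14 := by gcongr
        _ = t ^ 15 := by ring
        _ ≤ _ := hbpos
    · push_cast
      rw [hbabs]
      linarith [hone 15]
    · push_cast
      rw [hbabs]
      have : t ^ 15 ≤ t ^ j := hmono (by omega)
      linarith [hsb.2]
    · push_cast
      have e : (s : ℝ) * a * ζ ^ 2 + (s * b + l) * ζ + (s * c - r) = -V * (-L / V - s) := by
        rw [mul_sub, neg_mul, mul_div_cancel₀ _ hV0, hV, hL]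
        ring
      rw [e, abs_mul, abs_neg]
      calc |V| * |-L / V - s| * t ^ (j + 3) ≤ |V| * 1 * t ^ (j + 3) := by gcongr; linarith
        _ ≤ 1 := by rw [mul_one]; exact hv

theorem not_liouville_bound {ζ : ℝ} (hζ : Transcendental ℤ ζ) (h : ¬ Liouville ζ) :
    ∃ m : ℕ, ∀ a b : ℤ, b ≠ 0 → 1 ≤ |b * ζ + a| * (2 * |(b : ℝ)|) ^ m := by
  unfold Liouville at h
  push Not at h
  obtain ⟨m, hm⟩ := h
  refine ⟨m, ?_⟩
  have key : ∀ a b : ℤ, 0 < b → 1 ≤ |b * ζ + a| * (2 * |(b : ℝ)|) ^ m := by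
    intro a b hb
    have hb' : (1 : ℝ) ≤ b := by exact_mod_cast hb
    have hne : ζ ≠ ((-2 * a : ℤ) : ℝ) / ((2 * b : ℤ) : ℝ) := by
      intro he
      apply hζ
      refine ⟨C b * X + C a, ?_, ?_⟩
      · intro h0
        have := congrArg (fun p => p.coeff 1) h0
        simp only [coeff_add, coeff_C_mul, coeff_X, coeff_C] at this
        simp at this
        omega
      · rw [map_add, map_mul, aeval_C, aeval_C, aeval_X]
        simp only [algebraMap_int_eq, eq_intCast]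
        rw [he]
        push_cast
        field_simp
        ring
    have h1 := hm (-2 * a) (2 * b) (by omega) hne
    rw [div_le_iff₀ (by push_cast; positivity)] at h1
    have e : ζ - ((-2 * a : ℤ) : ℝ) / ((2 * b : ℤ) : ℝ) = (b * ζ + a) / b := by
      push_cast
      field_simp
      ring
    rw [e, abs_div, abs_of_pos (by linarith : (0 : ℝ) < b)] at h1
    rw [abs_of_pos (by linarith : (0 : ℝ) < b)]
    push_cast at h1
    refine h1.trans ?_
    gcongr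
    exact div_le_self (abs_nonneg _) hb'
  intro a b hb
  rcases lt_or_gt_of_ne hb with h | h
  · have := key (-a) (-b) (by omega)
    push_cast at this
    rwa [show -(b : ℝ) * ζ + -a = -(b * ζ + a) by ring, abs_neg, abs_neg] at this
  · exact key a b h

theorem exists_gt_one {ζ : ℝ} (hζ : Transcendental ℤ ζ) (h : ¬ Liouville ζ) :
    ∃ w : ℝ, 1 < w ∧ ∃ H₀ : ℝ, ∀ H : ℝ, H₀ ≤ H → Good ζ 2 w H := by
  obtain ⟨m, hm⟩ := not_liouville_bound hζ h
  set j := 16 * m + 20 with hj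
  set M := |ζ| + 1 with hM
  have hM1 : 1 ≤ M := by linarith [abs_nonneg ζ]
  have hjpos : (0 : ℝ) < (j : ℝ) + 1 := by positivity
  refine ⟨((j : ℝ) + 2) / ((j : ℝ) + 1), by rw [lt_div_iff₀ hjpos]; linarith,
    (12 * M ^ 2) ^ (j + 1), fun H hH => ?_⟩
  have hH0 : 0 < H := lt_of_lt_of_le (by positivity) hH
  have e1 : (H ^ (((j + 1 : ℕ) : ℝ)⁻¹)) ^ (j + 1) = H := Real.rpow_inv_natCast_pow hH0.le (by omega)
  refine main_est (t := H ^ (((j + 1 : ℕ) : ℝ)⁻¹)) hζ (by linarith) hM1 hm hj ?_ e1 ?_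
  · refine le_of_pow_le_pow_left₀ (n := j + 1) (by omega) (by positivity) ?_
    rwa [e1]
  · rw [Real.rpow_neg hH0.le, ← Real.rpow_natCast, ← Real.rpow_mul hH0.le]
    congr 2
    push_cast
    field_simp

end Pool.Agent.H273Z.Liou
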