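import Pool.Agent.H273Z.LiouA

set_option autoImplicit false

open Polynomial

namespace Pool.Agent.H273Z.Liou

theorem good_mono {ζ w H : ℝ} {n : ℕ} (hn : 2 ≤ n) (h : Good ζ 2 w H) : Good ζ n w H := by
  obtain ⟨α, P, h1, h2, h3⟩ := h
  exact ⟨α, P, h1, h2.trans hn, h3⟩

/-- Dirichlet: each exponent below one is admissible -/
theorem good_lt_one {ζ : ℝ} (hζ : Transcendental ℤ ζ) {n : ℕ} (hn : 1 ≤ n) {w : ℝ} (hw : w < 1) :
    ∃ H₀ : ℝ, ∀ H : ℝ, H₀ ≤ H → Good ζ n w H := by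
  set M := |ζ| + 1 with hM
  have hM1 : 1 ≤ M := by linarith [abs_nonneg ζ]
  have hlim : Filter.Tendsto (fun H : ℝ => H ^ (1 - w)) Filter.atTop Filter.atTop :=
    tendsto_rpow_atTop (by linarith)
  obtain ⟨H₁, hH₁⟩ := Filter.eventually_atTop.mp (hlim.eventually_ge_atTop (M ^ 2))
  refine ⟨max H₁ M, fun H hH => ?_⟩
  have hHM : M ≤ H := (le_max_right _ _).trans hH
  have hH0 : 0 < H := by linarith
  have hH1 := hH₁ H ((le_max_left _ _).trans hH)
  have hfl : 0 < ⌊H / M⌋₊ := Nat.floor_pos.mpr ((one_le_div (by linarith)).mpr hHM)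
  obtain ⟨p, q, hq0, hq1, hq2⟩ := Real.exists_int_int_abs_mul_sub_le ζ hfl
  have hq0' : (1 : ℝ) ≤ q := by exact_mod_cast hq0
  have hq1' : (q : ℝ) * M ≤ H := by
    have : (q : ℝ) ≤ (⌊H / M⌋₊ : ℝ) := by exact_mod_cast hq1
    have h2 := this.trans (Nat.floor_le (by positivity))
    rwa [le_div_iff₀ (by linarith)] at h2
  have hq3 : |q * ζ - p| * H ≤ M := by
    rw [le_div_iff₀ (by positivity)] at hq2
    have h1 : H / M ≤ (⌊H / M⌋₊ : ℝ) + 1 := (Nat.lt_floor_add_one _).le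
    have h2 : |q * ζ - p| * (H / M) ≤ 1 := le_trans (by gcongr) hq2
    rwa [← mul_div_assoc, div_le_iff₀ (by linarith), one_mul] at h2
  have hq4 : |q * ζ - p| ≤ 1 := by
    have := abs_nonneg (q * ζ - p)
    nlinarith
  have hp : |(p : ℝ)| ≤ q * M := by
    have h1 := abs_sub (q * ζ) (q * ζ - p)
    rw [show (q : ℝ) * ζ - (q * ζ - p) = p by ring, abs_mul, abs_of_pos (by linarith : (0 : ℝ) < q)]
      at h1
    rw [hM]
    linarith
  let Q : ℤ[X] := C q * X + C (-p)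
  have c1 : Q.coeff 1 = q := by
    simp only [Q, coeff_add, coeff_C_mul, coeff_X, coeff_C]; simp
  have c0 : Q.coeff 0 = -p := by
    simp only [Q, coeff_add, coeff_C_mul, coeff_X, coeff_C]; simp
  have hdeg : Q.natDegree ≤ 1 := natDegree_linear_le
  have hQ : Q ≠ 0 := by
    intro h0
    rw [h0] at c1
    simp at c1
    omega
  have hco : ∀ i, |(Q.coeff i : ℝ)| ≤ q * M := by
    intro i
    rcases i with _ | _ | i
    · rw [c0]; push_cast; rwa [abs_neg]
    · rw [c1, abs_of_pos (by linarith)]; nlinarith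
    · rw [coeff_eq_zero_of_natDegree_lt (by omega)]
      simp only [Int.cast_zero, abs_zero]
      positivity
  have hroot : aeval ((p : ℝ) / q) Q = 0 := by
    simp only [Q]
    rw [map_add, map_mul, aeval_C, aeval_C, aeval_X]
    simp only [algebraMap_int_eq, eq_intCast]
    push_cast
    field_simp
    ring
  obtain ⟨P, R, h1, h2, h3⟩ := exists_irred_root Q hQ hroot
  obtain ⟨_, h5⟩ := factor_ht hQ h2 (by omega) hco
  have h4 : P.natDegree ≤ n :=
    (natDegree_le_of_dvd ⟨R, h2⟩ hQ).trans (hdeg.trans hn)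
  have h6 := ht_le h5
  have h7 := one_le_ht h1.ne_zero
  refine ⟨(p : ℝ) / q, P, h1, h4, h3, h6.trans hq1', ?_, ?_⟩
  · rw [abs_pos, sub_ne_zero]
    intro he
    exact hζ ⟨P, h1.ne_zero, by rw [he]; exact h3⟩
  · have e : ζ - (p : ℝ) / q = (q * ζ - p) / q := by field_simp
    have e2 : H ^ (-w) = H ^ (1 - w) / H := by
      rw [Real.rpow_sub hH0, Real.rpow_one, Real.rpow_neg hH0.le]
      field_simp
    rw [e, abs_div, abs_of_pos (by linarith : (0 : ℝ) < q), e2]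
    calc |q * ζ - p| / q ≤ (M / H) / q := by
          gcongr
          rwa [le_div_iff₀ hH0]
      _ = (q * M)⁻¹ * (M ^ 2 / H) := by field_simp
      _ ≤ _ := by gcongr

theorem lipschitz (P : ℤ[X]) {n : ℕ} (hn : P.natDegree ≤ n) {x y M : ℝ} (hx : |x| ≤ M)
    (hy : |y| ≤ M) (hM : 1 ≤ M) :
    |aeval x P - aeval y P| ≤ ((n + 1) * n * M ^ n) * ht P * |x - y| := by
  rw [aeval_eq_sum_range' (Nat.lt_succ_of_le hn), aeval_eq_sum_range' (Nat.lt_succ_of_le hn),
    ← Finset.sum_sub_distrib]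
  refine (Finset.abs_sum_le_sum_abs _ _).trans ?_
  have h1 : ∀ i ∈ Finset.range (n + 1), |P.coeff i • x ^ i - P.coeff i • y ^ i| ≤
      (n * M ^ n) * ht P * |x - y| := by
    intro i hi
    have hi' : i ≤ n := Nat.lt_succ_iff.mp (Finset.mem_range.mp hi)
    rw [← smul_sub, zsmul_eq_mul, abs_mul]
    have h2 : |x ^ i - y ^ i| ≤ |x - y| * n * M ^ n := by
      refine (abs_pow_sub_pow_le (a := x) (b := y) (n := i)).trans ?_
      have h3 : max |x| |y| ^ (i - 1) ≤ M ^ n :=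
        (pow_le_pow_left₀ (le_max_of_le_left (abs_nonneg _)) (max_le hx hy) _).trans
          (pow_le_pow_right₀ hM (by omega))
      gcongr
    calc |(P.coeff i : ℝ)| * |x ^ i - y ^ i| ≤ ht P * (|x - y| * n * M ^ n) := by
          gcongr; exact coeff_le_ht P i
      _ = _ := by ring
  refine (Finset.sum_le_card_nsmul _ _ _ h1).trans (le_of_eq ?_)
  rw [Finset.card_range, nsmul_eq_mul]
  push_cast
  ring

theorem root_eq_of_rat {P : ℤ[X]} (hP : Irreducible P) {α : ℝ} (hα : aeval α P = 0) {r : ℚ}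
    (hr : aeval (r : ℝ) P = 0) : α = r := by
  have hd : P.natDegree ≠ 0 := by
    intro h0
    rw [eq_C_of_natDegree_eq_zero h0] at hα hP
    rw [aeval_C] at hα
    simp only [algebraMap_int_eq, eq_intCast, Int.cast_eq_zero] at hα
    rw [hα] at hP
    simp at hP
  have hprim := hP.isPrimitive hd
  have hirr := (IsPrimitive.Int.irreducible_iff_irreducible_map_cast hprim).mp hP
  have hroot : IsRoot (P.map (Int.castRingHom ℚ)) r := by
    rw [IsRoot, eval_map]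
    have h1 : aeval (r : ℝ) P = ((aeval r P : ℚ) : ℝ) := by
      have := Polynomial.aeval_algebraMap_apply ℝ r P
      simpa using this
    rw [h1] at hr
    have h2 : aeval r P = 0 := by exact_mod_cast hr
    exact h2
  have hdeg : (P.map (Int.castRingHom ℚ)).natDegree = 1 :=
    natDegree_eq_of_degree_eq_some (degree_eq_one_of_irreducible_of_root hirr hroot)
  rw [natDegree_map_eq_of_injective (Int.castRingHom ℚ).injective_int] at hdeg
  have hlc : (P.coeff 1 : ℝ) ≠ 0 := by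
    have : P.coeff 1 ≠ 0 := by
      have h := leadingCoeff_ne_zero.mpr hP.ne_zero
      rwa [leadingCoeff, hdeg] at h
    exact_mod_cast this
  rw [aeval_eq_sum_range' (n := 2) (by omega)] at hα hr
  simp only [Finset.sum_range_succ, Finset.sum_range_zero, zsmul_eq_mul] at hα hr
  apply mul_left_cancel₀ hlc
  linarith

theorem le_one_of_liouville {ζ : ℝ} (hL : Liouville ζ) {n : ℕ} {w H₀ : ℝ}
    (h : ∀ H : ℝ, H₀ ≤ H → Good ζ n w H) : w ≤ 1 := by
  by_contra hw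
  push Not at hw
  have hw0 : 0 < w := by linarith
  set M := |ζ| + 1 with hM
  have hM1 : 1 ≤ M := by linarith [abs_nonneg ζ]
  set K : ℝ := (n + 1) * n * M ^ n with hK
  have hK0 : 0 ≤ K := by positivity
  set θ := 1 - w⁻¹ with hθ
  have hwi : w⁻¹ < 1 := inv_lt_one_of_one_lt₀ hw
  have hwi0 : 0 < w⁻¹ := by positivity
  have hθ0 : 0 < θ := by linarith
  obtain ⟨i, hi⟩ := pow_unbounded_of_one_lt (4 * K) (one_lt_two (α := ℝ))
  obtain ⟨N1, hN1⟩ := exists_nat_ge (((n + i : ℕ) : ℝ) / θ)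
  obtain ⟨N2, hN2⟩ := pow_unbounded_of_one_lt ((max H₀ 1) ^ w) (one_lt_two (α := ℝ))
  obtain ⟨a, b, hb, hne, hlt⟩ := hL (N1 + N2)
  have hb' : (2 : ℝ) ≤ b := by exact_mod_cast hb
  set δ := |ζ - a / b| with hδ
  have hδ0 : 0 < δ := abs_pos.mpr (sub_ne_zero.mpr hne)
  have hbN : (1 : ℝ) ≤ (b : ℝ) ^ (N1 + N2) := one_le_pow₀ (by linarith)
  have hδ1 : δ * (b : ℝ) ^ (N1 + N2) < 1 := by rwa [lt_div_iff₀ (by positivity)] at hlt
  have hδ2 : δ ≤ 1 := by nlinarith
  set X := (2 / δ) ^ w⁻¹ with hX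
  have hXw : X ^ w = 2 / δ := Real.rpow_inv_rpow (by positivity) hw0.ne'
  have hX0 : 0 < X := by positivity
  have hXge : max H₀ 1 ≤ X := by
    have h0 : 0 ≤ max H₀ 1 := le_trans zero_le_one (le_max_right _ _)
    rw [← Real.rpow_le_rpow_iff h0 hX0.le hw0, hXw, le_div_iff₀ hδ0]
    have h1 : (2 : ℝ) ^ N2 ≤ (b : ℝ) ^ (N1 + N2) :=
      (pow_le_pow_left₀ (by norm_num) hb' _).trans (pow_le_pow_right₀ (by linarith) (by omega))
    nlinarith
  have hX1 : 1 ≤ X := (le_max_right _ _).trans hXge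
  obtain ⟨α, P, hP, hdeg, hroot, hht, _, hd⟩ := h X ((le_max_left _ _).trans hXge)
  rw [Real.rpow_neg hX0.le, hXw, inv_div] at hd
  have h1 := one_le_ht hP.ne_zero
  have hd2 : (ht P : ℝ) * |ζ - α| ≤ δ / 2 := by
    rwa [← div_eq_inv_mul, le_div_iff₀ (by linarith), mul_comm] at hd
  have hd3 : |ζ - α| ≤ δ / 2 := by nlinarith [abs_nonneg (ζ - α)]
  have hnz : aeval ((a : ℝ) / b) P ≠ 0 := by
    intro h0
    have := root_eq_of_rat hP hroot (r := (a : ℚ) / b) (by push_cast; exact h0)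
    push_cast at this
    rw [this] at hd3
    linarith
  have hev : eval ((a : ℝ) / b) (P.map (algebraMap ℤ ℝ)) = aeval ((a : ℝ) / b) P := by
    rw [eval_map_algebraMap]
  have hlow := one_le_pow_mul_abs_eval_div (K := ℝ) (f := P) (a := a) (b := b) (by omega)
    (by rw [hev]; exact hnz)
  rw [hev] at hlow
  have hx : |(a : ℝ) / b| ≤ M := by
    have := abs_sub ζ (ζ - a / b)
    rw [show ζ - (ζ - a / b) = a / b by ring] at this
    linarith
  have hy : |α| ≤ M := by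
    have := abs_sub ζ (ζ - α)
    rw [show ζ - (ζ - α) = α by ring] at this
    linarith
  have hlip := lipschitz P hdeg hx hy hM1
  rw [hroot, sub_zero, ← hK] at hlip
  have htri : |(a : ℝ) / b - α| ≤ δ + |ζ - α| := by
    have := abs_sub (ζ - α) (ζ - a / b)
    rw [show ζ - α - (ζ - a / b) = a / b - α by ring] at this
    linarith
  have hup : (ht P : ℝ) * |(a : ℝ) / b - α| ≤ 2 * (X * δ) := by
    calc (ht P : ℝ) * |(a : ℝ) / b - α| ≤ ht P * (δ + |ζ - α|) := by gcongr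
      _ = ht P * δ + ht P * |ζ - α| := by ring
      _ ≤ X * δ + δ / 2 := by gcongr
      _ ≤ _ := by nlinarith
  have hXδ : X * δ ≤ 2 * δ ^ θ := by
    rw [hX, Real.div_rpow (by norm_num) hδ0.le, hθ, Real.rpow_sub hδ0, Real.rpow_one]
    have : (2 : ℝ) ^ w⁻¹ ≤ 2 := by
      calc (2 : ℝ) ^ w⁻¹ ≤ 2 ^ (1 : ℝ) := Real.rpow_le_rpow_of_exponent_le (by norm_num) hwi.le
        _ = 2 := Real.rpow_one 2
    calc (2 : ℝ) ^ w⁻¹ / δ ^ w⁻¹ * δ = (2 : ℝ) ^ w⁻¹ * (δ / δ ^ w⁻¹) := by ring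
      _ ≤ _ := by gcongr
  have hδθ : δ ^ θ * (b : ℝ) ^ (n + i) ≤ 1 := by
    have e1 : (b : ℝ) ^ (n + i) ≤ ((b : ℝ) ^ (N1 + N2)) ^ θ := by
      rw [← Real.rpow_natCast, ← Real.rpow_natCast, ← Real.rpow_mul (by linarith)]
      apply Real.rpow_le_rpow_of_exponent_le (by linarith)
      rw [div_le_iff₀ hθ0] at hN1
      refine hN1.trans ?_
      gcongr
      omega
    calc δ ^ θ * (b : ℝ) ^ (n + i) ≤ δ ^ θ * ((b : ℝ) ^ (N1 + N2)) ^ θ := by gcongr
      _ = (δ * (b : ℝ) ^ (N1 + N2)) ^ θ := (Real.mul_rpow hδ0.le (by positivity)).symm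
      _ ≤ 1 := Real.rpow_le_one (by positivity) hδ1.le hθ0.le
  have hbn : (b : ℝ) ^ P.natDegree ≤ (b : ℝ) ^ n := pow_le_pow_right₀ (by linarith) hdeg
  have hbi : (2 : ℝ) ^ i ≤ (b : ℝ) ^ i := pow_le_pow_left₀ (by norm_num) hb' _
  have hfin : (1 : ℝ) ≤ (b : ℝ) ^ n * (4 * K * δ ^ θ) := by
    refine hlow.trans ?_
    have : |aeval ((a : ℝ) / b) P| ≤ 4 * K * δ ^ θ := by
      calc |aeval ((a : ℝ) / b) P| ≤ K * (ht P * |(a : ℝ) / b - α|) := by rw [← mul_assoc]; exact hlip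
        _ ≤ K * (2 * (2 * δ ^ θ)) := mul_le_mul_of_nonneg_left (by linarith) hK0
        _ = _ := by ring
    gcongr
  have hpos : 0 < (b : ℝ) ^ n * δ ^ θ := by positivity
  rw [pow_add] at hδθ
  nlinarith

end Pool.Agent.H273Z.Liou
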