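import Mathlib

set_option autoImplicit false

namespace Pool.Agent.H273Z.PU

/-- The point `p` of `M` is `C_a`-unstable in `M`. -/
def UnstableVia {M : Type} [TopologicalSpace M] (C : Type) [TopologicalSpace C] (a : C) (p : M) :
    Prop :=
  ∃ F : M × C → M, Continuous F ∧ (∀ z : M, F (z, a) = z) ∧
    ∀ (z : M) (c : C), c ≠ a → F (z, c) ≠ p

/-- The point `p` of `M` is pseudo-unstable in `M`: it is `C_a`-unstable in `M` for some
nondegenerate continuum `C` and some `a : C`. -/
def PseudoUnstable {M : Type} [TopologicalSpace M] (p : M) : Prop :=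
  ∃ (C : Type) (_ : MetricSpace C), CompactSpace C ∧ ConnectedSpace C ∧ Nontrivial C ∧
    ∃ a : C, UnstableVia C a p

end Pool.Agent.H273Z.PU
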