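import Pool.Agent.H273Z.PUDefs

set_option autoImplicit false

open Set Filter Topology Complex

namespace Pool.Agent.H273Z.PU

/-- the spiral monoid: a spiral winding onto the boundary of a disc -/
def S : Set (ℝ × ℂ) :=
  {p | 0 ≤ p.1 ∧ p.1 ≤ 1 ∧ ‖p.2‖ ≤ 1 ∧ (p.1 : ℂ) * p.2 = (p.1 : ℂ) ^ (1 + I)}

theorem one_add_I_ne : (1 + I : ℂ) ≠ 0 := by
  intro h
  have := congrArg Complex.re h
  simp at this

theorem one_mem_S : (1 : ℝ × ℂ) ∈ S := by
  simp [S]

theorem zero_mem_S : (0 : ℝ × ℂ) ∈ S := by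
  simp [S, one_add_I_ne]

theorem mul_mem_S {p q : ℝ × ℂ} (hp : p ∈ S) (hq : q ∈ S) : p * q ∈ S := by
  obtain ⟨h1, h2, h3, h4⟩ := hp
  obtain ⟨k1, k2, k3, k4⟩ := hq
  refine ⟨mul_nonneg h1 k1, mul_le_one₀ h2 k1 k2, ?_, ?_⟩
  · rw [Prod.snd_mul, norm_mul]
    exact mul_le_one₀ h3 (norm_nonneg _) k3
  · rw [Prod.fst_mul, Prod.snd_mul, Complex.ofReal_mul, Complex.mul_cpow_ofReal_nonneg h1 k1,
      ← h4, ← k4]
    ring

theorem eq_one_of_mul {p q : ℝ × ℂ} (hp : p ∈ S) (hq : q ∈ S) (h : p * q = 1) : q = 1 := by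
  obtain ⟨h1, h2, h3, h4⟩ := hp
  obtain ⟨k1, k2, k3, k4⟩ := hq
  have h5 : p.1 * q.1 = 1 := by simpa using congrArg Prod.fst h
  have h6 : q.1 = 1 := by nlinarith
  rw [h6] at k4
  ext
  · simpa using h6
  · simpa using k4

theorem isClosed_S : IsClosed S := by
  have hc : Continuous (fun a : ℝ => (a : ℂ) ^ (1 + I)) :=
    Complex.continuous_ofReal_cpow_const (by simp)
  refine (isClosed_le continuous_const continuous_fst).inter
    ((isClosed_le continuous_fst continuous_const).inter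
    ((isClosed_le continuous_snd.norm continuous_const).inter
    (isClosed_eq ((Complex.continuous_ofReal.comp continuous_fst).mul continuous_snd)
      (hc.comp continuous_fst))))

theorem isCompact_S : IsCompact S := by
  refine (isCompact_Icc.prod (isCompact_closedBall (0 : ℂ) 1)).of_isClosed_subset isClosed_S
    (s := Icc (0 : ℝ) 1 ×ˢ Metric.closedBall (0 : ℂ) 1) ?_
  rintro p ⟨h1, h2, h3, _⟩
  exact ⟨⟨h1, h2⟩, by simpa using h3⟩

theorem cpow_exp (t : ℝ) :
    ((Real.exp t : ℝ) : ℂ) ^ (1 + I) = (Real.exp t : ℝ) * cexp (t * I) := by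
  rw [Complex.cpow_def_of_ne_zero (by simp), Complex.ofReal_exp, Complex.log_exp (by simp [Real.pi_pos])
    (by simp [Real.pi_pos.le]), mul_add, Complex.exp_add, mul_one]

theorem snd_of_exp {p : ℝ × ℂ} (hp : p ∈ S) {t : ℝ} (h : p.1 = Real.exp t) :
    p.2 = cexp (t * I) := by
  have h4 := hp.2.2.2
  rw [h, cpow_exp] at h4
  exact mul_left_cancel₀ (by simp) h4

/-- the spiral -/
noncomputable def sp (t : ℝ) : ℝ × ℂ := (Real.exp t, cexp (t * I))

theorem sp_mem {t : ℝ} (ht : t ≤ 0) : sp t ∈ S := by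
  refine ⟨(Real.exp_pos t).le, Real.exp_le_one_iff.mpr ht, ?_, (cpow_exp t).symm⟩
  simp [sp, Complex.norm_exp_ofReal_mul_I]

theorem isPreconnected_S : IsPreconnected S := by
  have h1 : IsPreconnected (sp '' Iic 0) :=
    isPreconnected_Iic.image _ (by unfold sp; fun_prop)
  have h2 : ((0, 1) : ℝ × ℂ) ∈ closure (sp '' Iic 0) := by
    have hlim : Tendsto (fun k : ℕ => sp (-(k * (2 * Real.pi)))) atTop (𝓝 (0, 1)) := by
      have e : (fun k : ℕ => sp (-(k * (2 * Real.pi)))) =
          fun k : ℕ => (Real.exp (-(k * (2 * Real.pi))), (1 : ℂ)) := by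
        funext k
        simp only [sp, Prod.mk.injEq, true_and]
        have := Complex.exp_int_mul_two_pi_mul_I (-(k : ℤ))
        rw [← this]
        congr 1
        push_cast
        ring
      rw [e]
      refine Tendsto.prodMk_nhds ?_ tendsto_const_nhds
      refine Real.tendsto_exp_neg_atTop_nhds_zero.comp ?_
      exact tendsto_natCast_atTop_atTop.atTop_mul_const (by positivity)
    refine mem_closure_of_tendsto hlim (Eventually.of_forall fun k => ⟨_, ?_, rfl⟩)
    have : (0 : ℝ) ≤ k * (2 * Real.pi) := by positivity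
    simpa using this
  have h3 : IsPreconnected (({0} : Set ℝ) ×ˢ Metric.closedBall (0 : ℂ) 1) :=
    isPreconnected_singleton.prod (convex_closedBall _ _).isPreconnected
  have h4 : S = closure (sp '' Iic 0) ∪ ({0} : Set ℝ) ×ˢ Metric.closedBall (0 : ℂ) 1 := by
    apply Subset.antisymm
    · intro p hp
      rcases hp.1.eq_or_lt with h | h
      · right
        exact ⟨h.symm, by simpa using hp.2.2.1⟩
      · left
        apply subset_closure
        refine ⟨Real.log p.1, Real.log_nonpos hp.1 hp.2.1, ?_⟩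
        ext
        · simp [sp, Real.exp_log h]
        · exact (snd_of_exp hp (Real.exp_log h).symm).symm
    · apply union_subset
      · apply closure_minimal _ isClosed_S
        rintro _ ⟨t, ht, rfl⟩
        exact sp_mem ht
      · rintro p ⟨hp1, hp2⟩
        have hp1' : p.1 = 0 := hp1
        refine ⟨hp1'.ge, by rw [hp1']; norm_num, by simpa using hp2, ?_⟩
        simp [hp1', one_add_I_ne]
  rw [h4]
  exact IsPreconnected.union (0, 1) h2 ⟨rfl, by simp⟩ h1.closure h3

/-- a path in `S` cannot go from the spiral to the disc -/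
theorem path_S {γ : ℝ → ℝ × ℂ} (hγ : Continuous γ) (hS : ∀ t, γ t ∈ S) {a : ℝ}
    (ha : (γ a).1 ≠ 0) (b : ℝ) : (γ b).1 ≠ 0 := by
  have hcl : IsClosed {t | (γ t).1 = 0} := isClosed_eq (by fun_prop) continuous_const
  have hop : IsOpen {t | (γ t).1 = 0} := by
    rw [Metric.isOpen_iff]
    intro t0 ht0
    have hc2 : Continuous (fun t => (γ t).2) := by fun_prop
    obtain ⟨δ, hδ, hd⟩ := Metric.continuous_iff.mp hc2 t0 1 one_pos
    refine ⟨δ, hδ, ?_⟩
    intro t1 ht1
    by_contra hne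
    have hpos : 0 < (γ t1).1 := lt_of_le_of_ne (hS t1).1 (Ne.symm hne)
    have hiv : Icc (γ t0).1 (γ t1).1 ⊆ (fun t => (γ t).1) '' Metric.ball t0 δ :=
      (convex_ball t0 δ).isPreconnected.intermediate_value (Metric.mem_ball_self hδ) ht1
        (f := fun t => (γ t).1) (by fun_prop)
    have ht0' : (γ t0).1 = 0 := ht0
    rw [ht0'] at hiv
    have hlim : Tendsto (fun k : ℕ => Real.exp (-(k * (2 * Real.pi)))) atTop (𝓝 0) := by
      refine Real.tendsto_exp_neg_atTop_nhds_zero.comp ?_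
      exact tendsto_natCast_atTop_atTop.atTop_mul_const (by positivity)
    obtain ⟨k, hk⟩ := (hlim.eventually (gt_mem_nhds hpos)).exists
    obtain ⟨s1, hs1, e1⟩ := hiv ⟨(Real.exp_pos _).le, hk.le⟩
    have hk2 : Real.exp (-(k * (2 * Real.pi)) - Real.pi) ≤ (γ t1).1 :=
      (Real.exp_le_exp.mpr (by linarith [Real.pi_pos])).trans hk.le
    obtain ⟨s2, hs2, e2⟩ := hiv ⟨(Real.exp_pos _).le, hk2⟩
    have w1 : (γ s1).2 = 1 := by
      rw [snd_of_exp (hS s1) e1, ← Complex.exp_int_mul_two_pi_mul_I (-(k : ℤ))]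
      congr 1
      push_cast
      ring
    have w2 : (γ s2).2 = -1 := by
      rw [snd_of_exp (hS s2) e2]
      have := Complex.exp_int_mul_two_pi_mul_I (-(k : ℤ) - 1)
      rw [← Complex.exp_pi_mul_I, ← one_mul (cexp (Real.pi * I)), ← this, ← Complex.exp_add]
      congr 1
      push_cast
      ring
    have d1 := hd s1 hs1
    have d2 := hd s2 hs2
    rw [w1] at d1
    rw [w2] at d2
    have d3 := dist_triangle_right (1 : ℂ) (-1) (γ t0).2
    have d4 : dist (1 : ℂ) (-1) = 2 := by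
      rw [dist_eq_norm]; norm_num
    linarith
  rcases isClopen_iff.mp ⟨hcl, hop⟩ with h | h
  · intro hb
    have : b ∈ {t | (γ t).1 = 0} := hb
    rw [h] at this
    exact this
  · exfalso
    have : a ∈ {t | (γ t).1 = 0} := by rw [h]; trivial
    exact ha this

/-- the chain of spiral monoids -/
def K : Set (ℕ → ℝ × ℂ) := {s | (∀ n, s n ∈ S) ∧ ∀ n, s n = 1 ∨ s (n + 1) = 0}

theorem one_mem_K : (1 : ℕ → ℝ × ℂ) ∈ K := ⟨fun _ => one_mem_S, fun _ => Or.inl rfl⟩

theorem zero_mem_K : (0 : ℕ → ℝ × ℂ) ∈ K := ⟨fun _ => zero_mem_S, fun _ => Or.inr rfl⟩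

theorem mul_mem_K {s t : ℕ → ℝ × ℂ} (hs : s ∈ K) (ht : t ∈ K) : s * t ∈ K := by
  refine ⟨fun n => mul_mem_S (hs.1 n) (ht.1 n), fun n => ?_⟩
  rcases hs.2 n with h | h
  · rcases ht.2 n with k | k
    · left; simp [h, k]
    · right; simp [k]
  · right; simp [h]

theorem eq_one_of_mul_K {s t : ℕ → ℝ × ℂ} (hs : s ∈ K) (ht : t ∈ K) (h : s * t = 1) : t = 1 := by
  funext n
  exact eq_one_of_mul (hs.1 n) (ht.1 n) (congrFun h n)

theorem isCompact_K : IsCompact K := by
  have h1 : IsCompact (Set.pi univ (fun _ : ℕ => S)) := isCompact_univ_pi fun _ => isCompact_S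
  refine h1.of_isClosed_subset ?_ (fun s hs n _ => hs.1 n)
  have e : K = (⋂ n, {s : ℕ → ℝ × ℂ | s n ∈ S}) ∩
      ⋂ n, ({s : ℕ → ℝ × ℂ | s n = 1} ∪ {s | s (n + 1) = 0}) := by
    ext s
    simp [K]
  rw [e]
  refine (isClosed_iInter fun n => isClosed_S.preimage (continuous_apply n)).inter
    (isClosed_iInter fun n => ?_)
  exact (isClosed_eq (continuous_apply n) continuous_const).union
    (isClosed_eq (continuous_apply (n + 1)) continuous_const)

/-- the `n`-th link of the chain -/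
def lk (n : ℕ) (x : ℝ × ℂ) : ℕ → ℝ × ℂ := fun m => if m < n then 1 else if m = n then x else 0

theorem lk_mem (n : ℕ) {x : ℝ × ℂ} (hx : x ∈ S) : lk n x ∈ K := by
  constructor
  · intro m
    unfold lk
    split_ifs
    exacts [one_mem_S, hx, zero_mem_S]
  · intro m
    unfold lk
    by_cases h : m < n
    · left; simp [h]
    · right
      rw [if_neg (by omega), if_neg (by omega)]

theorem continuous_lk (n : ℕ) : Continuous (lk n) := by
  refine continuous_pi fun m => ?_
  unfold lk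
  split_ifs
  exacts [continuous_const, continuous_id, continuous_const]

theorem isPreconnected_K : IsPreconnected K := by
  have h1 : IsPreconnected (⋃ n, lk n '' S) := by
    refine IsPreconnected.iUnion_of_chain
      (fun n => isPreconnected_S.image _ (continuous_lk n).continuousOn) fun n => ?_
    refine ⟨lk n 1, ⟨1, one_mem_S, rfl⟩, 0, zero_mem_S, ?_⟩
    funext m
    simp only [lk, Order.succ_eq_add_one]
    split_ifs <;> first | rfl | omega
  refine h1.subset_closure ?_ ?_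
  · refine iUnion_subset fun n => ?_
    rintro _ ⟨x, hx, rfl⟩
    exact lk_mem n hx
  · intro s hs
    by_cases h : ∃ n, s n ≠ 1
    · apply subset_closure
      classical
      refine mem_iUnion.mpr ⟨Nat.find h, s (Nat.find h), hs.1 _, ?_⟩
      have hz : ∀ j, s (Nat.find h + 1 + j) = 0 := by
        intro j
        induction j with
        | zero => exact (hs.2 _).resolve_left (Nat.find_spec h)
        | succ j ih =>
          refine (hs.2 (Nat.find h + 1 + j)).resolve_left ?_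
          rw [ih]
          exact zero_ne_one
      funext m
      unfold lk
      split_ifs with h1 h2
      · have := Nat.find_min h h1
        push Not at this
        exact this.symm
      · rw [h2]
      · have : m = Nat.find h + 1 + (m - Nat.find h - 1) := by omega
        rw [this, hz]
    · push Not at h
      have hlim : Tendsto (fun n => lk n 1) atTop (𝓝 s) := by
        rw [tendsto_pi_nhds]
        intro m
        refine tendsto_const_nhds.congr' ?_
        filter_upwards [eventually_gt_atTop m] with n hn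
        simp [lk, hn, h m]
      exact mem_closure_of_tendsto hlim
        (Eventually.of_forall fun n => mem_iUnion.mpr ⟨n, 1, one_mem_S, rfl⟩)

theorem path_K {γ : ℝ → ℕ → ℝ × ℂ} (hγ : Continuous γ) (hK : ∀ t, γ t ∈ K) {a : ℝ}
    (ha : γ a = 1) (b : ℝ) : γ b = 1 := by
  funext n
  refine ((hK b).2 n).resolve_right fun h => ?_
  have := path_S (γ := fun t => γ t (n + 1)) (by fun_prop) (fun t => (hK t).1 _) (a := a)
    (by simp [ha]) b
  exact this (by simp [h])

/-- the space in which the point is pseudo-unstable -/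
def Xs : Set ((ℕ → ℝ × ℂ) × ℝ) := K ×ˢ Icc (-1) 1

/-- the same space with two whiskers -/
def Ys : Set ((ℕ → ℝ × ℂ) × ℝ) := Xs ∪ {1} ×ˢ Icc (-2) 2

theorem base_mem_Xs : ((1, 0) : (ℕ → ℝ × ℂ) × ℝ) ∈ Xs := ⟨one_mem_K, by norm_num⟩

theorem whisker_mem {s : ℝ} (hs : s ∈ Icc (-2 : ℝ) 2) : ((1, s) : (ℕ → ℝ × ℂ) × ℝ) ∈ Ys :=
  Or.inr ⟨rfl, hs⟩

theorem isCompact_Xs : IsCompact Xs := isCompact_K.prod isCompact_Icc

theorem isCompact_Ys : IsCompact Ys := isCompact_Xs.union (isCompact_singleton.prod isCompact_Icc)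

theorem isConnected_Xs : IsConnected Xs :=
  ⟨⟨_, base_mem_Xs⟩, isPreconnected_K.prod isPreconnected_Icc⟩

theorem isConnected_Ys : IsConnected Ys :=
  ⟨⟨_, Or.inl base_mem_Xs⟩, IsPreconnected.union (1, 0) base_mem_Xs ⟨rfl, by norm_num⟩
    isConnected_Xs.2 (isPreconnected_singleton.prod isPreconnected_Icc)⟩

theorem fst_mem_K {y : (ℕ → ℝ × ℂ) × ℝ} (hy : y ∈ Ys) : y.1 ∈ K := by
  rcases hy with h | h
  · exact h.1
  · rw [show y.1 = 1 from h.1]
    exact one_mem_K

theorem pu_X : PseudoUnstable (⟨(1, 0), base_mem_Xs⟩ : Xs) := by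
  refine ⟨K, TopologicalSpace.metrizableSpaceMetric K, isCompact_iff_compactSpace.mp isCompact_K,
    isConnected_iff_connectedSpace.mp ⟨⟨_, one_mem_K⟩, isPreconnected_K⟩,
    ⟨⟨⟨0, zero_mem_K⟩, ⟨1, one_mem_K⟩, fun h => zero_ne_one (congrArg Subtype.val h)⟩⟩,
    ⟨1, one_mem_K⟩, ?_⟩
  show @UnstableVia Xs _ K instTopologicalSpaceSubtype _ _
  refine ⟨fun q => ⟨(q.1.1.1 * q.2.1, q.1.1.2), mul_mem_K q.1.2.1 q.2.2, q.1.2.2⟩, ?_, ?_, ?_⟩
  · apply Continuous.subtype_mk
    fun_prop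
  · intro z
    simp
  · intro z c hc h
    apply hc
    apply Subtype.ext
    exact eq_one_of_mul_K z.2.1 c.2 (congrArg (fun w : Xs => w.1.1) h)

theorem not_pu_Y : ¬ PseudoUnstable (⟨(1, 0), Or.inl base_mem_Xs⟩ : Ys) := by
  rintro ⟨C, _, _, _, _, a, F, hF, hFa, hFp⟩
  let wp : Ys := ⟨(1, 2), whisker_mem (by norm_num)⟩
  let wm : Ys := ⟨(1, -2), whisker_mem (by norm_num)⟩
  have hp : ∀ᶠ c in 𝓝 a, 1 < (F (wp, c)).1.2 := by
    have hc : Continuous (fun c : C => (F (wp, c)).1.2) := by fun_prop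
    apply hc.continuousAt.eventually (lt_mem_nhds _)
    simp [hFa, wp]
  have hm : ∀ᶠ c in 𝓝 a, (F (wm, c)).1.2 < -1 := by
    have hc : Continuous (fun c : C => (F (wm, c)).1.2) := by fun_prop
    apply hc.continuousAt.eventually (gt_mem_nhds _)
    simp [hFa, wm]
  have hne : (𝓝[≠] a).NeBot := inferInstance
  obtain ⟨c, ⟨hcp, hcm⟩, hca⟩ :=
    (((hp.and hm).filter_mono nhdsWithin_le_nhds).and (self_mem_nhdsWithin (a := a) (s := {a}ᶜ))).exists
  have h22 : (-2 : ℝ) ≤ 2 := by norm_num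
  let γ : ℝ → Ys := fun s => F (⟨(1, (projIcc (-2 : ℝ) 2 h22 s : ℝ)),
    whisker_mem (projIcc (-2 : ℝ) 2 h22 s).2⟩, c)
  have hγ : Continuous γ := by
    apply hF.comp
    refine Continuous.prodMk ?_ continuous_const
    apply Continuous.subtype_mk
    exact continuous_const.prodMk (continuous_subtype_val.comp continuous_projIcc)
  have g2 : γ 2 = F (wp, c) := by simp [γ, wp]
  have gm : γ (-2) = F (wm, c) := by simp [γ, wm]
  have h1 : (γ 2).1.1 = 1 := by
    rcases (γ 2).2 with h | h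
    · exfalso
      have := h.2.2
      rw [g2] at this
      linarith
    · exact h.1
  have h2 : ∀ s, (γ s).1.1 = 1 :=
    path_K (γ := fun s => (γ s).1.1) (by fun_prop) (fun s => fst_mem_K (γ s).2) h1
  have hiv := intermediate_value_univ (-2 : ℝ) 2 (f := fun s => (γ s).1.2) (by fun_prop)
  obtain ⟨s, hs⟩ := hiv (show (0 : ℝ) ∈ _ from ⟨by simp only [gm]; linarith, by simp only [g2]; linarith⟩)
  refine hFp _ c hca (show γ s = _ from ?_)
  apply Subtype.ext
  exact Prod.ext (h2 s) hs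

/-- the first space is a neighbourhood of the base point in the second -/
def hom : (univ : Set Xs) ≃ₜ (Subtype.val ⁻¹' Xs : Set Ys) where
  toFun x := ⟨⟨x.1.1, Or.inl x.1.2⟩, x.1.2⟩
  invFun v := ⟨⟨v.1.1, v.2⟩, trivial⟩
  left_inv _ := rfl
  right_inv _ := rfl
  continuous_toFun := by
    apply Continuous.subtype_mk
    apply Continuous.subtype_mk
    fun_prop
  continuous_invFun := by
    apply Continuous.subtype_mk
    apply Continuous.subtype_mk
    fun_prop

theorem V_mem : (Subtype.val ⁻¹' Xs : Set Ys) ∈ 𝓝 (⟨(1, 0), Or.inl base_mem_Xs⟩ : Ys) := by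
  have hc : Continuous (fun y : Ys => y.1.2) := by fun_prop
  have h1 : (fun y : Ys => y.1.2) ⁻¹' Ioo (-1) 1 ∈ 𝓝 (⟨(1, 0), Or.inl base_mem_Xs⟩ : Ys) :=
    (isOpen_Ioo.preimage hc).mem_nhds (by norm_num)
  refine mem_of_superset h1 fun y hy => ?_
  exact ⟨fst_mem_K y.2, hy.1.le, hy.2.le⟩

theorem main : ∃ (X Y : Type) (_ : MetricSpace X) (_ : MetricSpace Y),
    CompactSpace X ∧ ConnectedSpace X ∧ CompactSpace Y ∧ ConnectedSpace Y ∧
    ∃ (x : X) (y : Y) (U : Set X) (V : Set Y) (hU : U ∈ 𝓝 x) (_ : V ∈ 𝓝 y) (h : U ≃ₜ V),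
      (h ⟨x, mem_of_mem_nhds hU⟩ : Y) = y ∧ PseudoUnstable x ∧ ¬ PseudoUnstable y :=
  ⟨Xs, Ys, TopologicalSpace.metrizableSpaceMetric Xs, TopologicalSpace.metrizableSpaceMetric Ys,
    isCompact_iff_compactSpace.mp isCompact_Xs, isConnected_iff_connectedSpace.mp isConnected_Xs,
    isCompact_iff_compactSpace.mp isCompact_Ys, isConnected_iff_connectedSpace.mp isConnected_Ys,
    ⟨(1, 0), base_mem_Xs⟩, ⟨(1, 0), Or.inl base_mem_Xs⟩, univ, Subtype.val ⁻¹' Xs, univ_mem, V_mem,
    hom, rfl, pu_X, not_pu_Y⟩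

end Pool.Agent.H273Z.PU
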